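import Pool.Agent.Run7.h718.SP.Comp

/-!
Finite-dimensional spaces of meromorphic functions which are stable under the substitution of a
polynomial of degree at least two consist of constants.
-/

set_option autoImplicit false
set_option maxHeartbeats 1000000
set_option synthInstance.maxHeartbeats 400000

open Pool.Agent.Run7.h718.ND

namespace Pool.Agent.Run7.h718.SP

open Set Filter Topology Polynomial

/-- division of entire functions -/
theorem div_ent {a b : Ent} (hb : b ≠ 0) (ha : a ≠ 0) (h : ∀ z, od z b ≤ od z a) :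
    ∃ u : Ent, b * u = a := by
  classical
  let F : ℂ → ℂ := fun z => a.1 z / b.1 z
  have hda : Differentiable ℂ a.1 := a.2
  have hdb : Differentiable ℂ b.1 := b.2
  have hloc : ∀ c, ∃ k : ℂ → ℂ, AnalyticAt ℂ k c ∧ ∀ᶠ z in 𝓝 c, b.1 z * k z = a.1 z := by
    intro c
    obtain ⟨ga, hga, -, hga1⟩ := ((ent_an a c (mem_univ c)).analyticOrderAt_eq_natCast (n := od c a)).1
      (Nat.cast_analyticOrderNatAt (od_ne_top ha c)).symm
    obtain ⟨gb, hgb, hgb0, hgb1⟩ := ((ent_an b c (mem_univ c)).analyticOrderAt_eq_natCast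
      (n := od c b)).1 (Nat.cast_analyticOrderNatAt (od_ne_top hb c)).symm
    refine ⟨fun z => (z - c) ^ (od c a - od c b) * (ga z / gb z), ?_, ?_⟩
    · exact ((analyticAt_id.sub analyticAt_const).pow _).mul (hga.div hgb hgb0)
    · filter_upwards [hga1, hgb1, hgb.continuousAt.eventually_ne hgb0] with z h1 h2 h3
      rw [h1, h2, smul_eq_mul, smul_eq_mul]
      have h4 : (z - c) ^ od c a = (z - c) ^ od c b * (z - c) ^ (od c a - od c b) := by
        rw [← pow_add]
        congr 1
        have := h c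
        omega
      rw [h4]
      field_simp
  choose k hk hk1 using hloc
  have hev : ∀ c, ∀ᶠ z in 𝓝 c, k z z = k c z := by
    intro c
    -- both are continuous quotients
    have h1 : ∀ᶠ z in 𝓝 c, ∀ᶠ x in 𝓝 z, b.1 x * k c x = a.1 x := (hk1 c).eventually_nhds
    have h2 : ∀ᶠ z in 𝓝 c, AnalyticAt ℂ (k c) z := (hk c).eventually_analyticAt
    filter_upwards [h1, h2] with z h3 h4
    have h5 : ∀ᶠ x in 𝓝 z, b.1 x * (k z x - k c x) = 0 := by
      filter_upwards [h3, hk1 z] with x h6 h7
      rw [mul_sub, h6, h7, sub_self]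
    have h6 : ∀ᶠ x in 𝓝 z, k z x - k c x = 0 := by
      have h7 : AnalyticAt ℂ (fun x => k z x - k c x) z := (hk z).sub h4
      rcases h7.eventually_eq_zero_or_eventually_ne_zero with h8 | h8
      · exact h8
      · exfalso
        have h9 : ∀ᶠ x in 𝓝[≠] z, b.1 x = 0 := by
          filter_upwards [h8, h5.filter_mono nhdsWithin_le_nhds] with x h10 h11
          exact (mul_eq_zero.1 h11).resolve_right h10
        have hb0 : ∃ z, b.1 z ≠ 0 := by
          by_contra h
          push Not at h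
          exact hb (Subtype.ext (funext h))
        rcases (ent_an b z (mem_univ z)).eventually_eq_zero_or_eventually_ne_zero with h10 | h10
        · exact not_ev_zero hdb hb0 z h10
        · obtain ⟨x, h11, h12⟩ := (h9.and h10).exists
          exact h12 h11
    have h7 := h6.self_of_nhds
    exact sub_eq_zero.1 h7
  refine ⟨⟨fun z => k z z, fun c => ?_⟩, ?_⟩
  · exact ((hk c).differentiableAt).congr_of_eventuallyEq (hev c)
  · apply Subtype.ext
    funext z
    exact (hk1 z).self_of_nhds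

/-- the zeros of an entire function in a disc -/
theorem zeros_fin {b : Ent} (hb : b ≠ 0) (r : ℝ) : {z : ℂ | b.1 z = 0 ∧ ‖z‖ ≤ r}.Finite := by
  by_contra hinf
  have hinf' : {z : ℂ | b.1 z = 0 ∧ ‖z‖ ≤ r}.Infinite := hinf
  obtain ⟨x, -, hx⟩ := hinf'.exists_accPt_of_subset_isCompact (isCompact_closedBall (0 : ℂ) r)
    fun z hz => mem_closedBall_zero_iff.2 hz.2
  have hfr : ∃ᶠ z in 𝓝[≠] x, b.1 z = 0 := by
    refine (accPt_iff_frequently_nhdsNE.1 hx).mono ?_
    rintro z ⟨hz, -⟩
    exact hz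
  have h3 := (ent_an b).eqOn_zero_of_preconnected_of_frequently_eq_zero isPreconnected_univ
    (mem_univ x) hfr
  exact hb (Subtype.ext (funext fun z => h3 (mem_univ z)))

/-- a constant function -/
def cst (c : ℂ) : Ent := ⟨fun _ => c, differentiable_const c⟩

theorem cst_eq (c : ℂ) : cst c = algebraMap ℂ Ent c := rfl

/-- eigenfunctions -/
theorem eigen {S : ℂ[X]} (hS : 2 ≤ S.natDegree) {v : Ent} (hv : v ≠ 0) {μ : ℂ}
    (h : cm S v = μ • v) : ∃ c, v = algebraMap ℂ Ent c := by
  have key : ∀ v : Ent, v ≠ 0 → ∀ μ : ℂ, cm S v = μ • v → ∀ z, v.1 z ≠ 0 := by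
    intro v hv μ h z
    have hμ : μ ≠ 0 := by
      rintro rfl
      rw [zero_smul] at h
      exact hv (cm_inj hS (h.trans (map_zero _).symm))
    have hD : ∀ z, od z v = od (S.eval z) v * ld S z := by
      intro z
      rw [← od_cm hS hv, h]
      have h1 : μ • v = (algebraMap ℂ Ent μ) * v := Algebra.smul_def μ v
      have h2 : algebraMap ℂ Ent μ ≠ 0 := by
        intro h0
        apply hμ
        exact congrFun (congrArg Subtype.val h0) 0
      rw [h1, od_mul h2 hv, (od_eq_zero h2).2 hμ, zero_add]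
    have h3 := no_div hS hD (fun r => (zeros_fin hv r).subset (by
      rintro z ⟨h4, h5⟩
      refine ⟨?_, h5⟩
      by_contra h6
      exact h4 ((od_eq_zero hv).2 h6))) z
    exact (od_eq_zero hv).1 h3
  obtain ⟨p, hp⟩ := exists_fixed hS
  have h1 := congrFun (congrArg Subtype.val h) p
  rw [cm_apply, hp] at h1
  have h2 : v.1 p = μ * v.1 p := h1
  have h3 : μ = 1 := by
    have h4 : (1 - μ) * v.1 p = 0 := by linear_combination h2
    rcases mul_eq_zero.1 h4 with h5 | h5
    · linear_combination -h5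
    · exact absurd h5 (key v hv μ h p)
  refine ⟨v.1 0, ?_⟩
  by_contra hne
  have h4 : v - algebraMap ℂ Ent (v.1 0) ≠ 0 := sub_ne_zero.2 hne
  refine key _ h4 1 ?_ 0 (sub_self _)
  rw [map_sub, h, h3, one_smul, one_smul, (cm S).commutes]

/-- eigenvectors in stable subspaces -/
theorem exists_eig {T : Type} [AddCommGroup T] [Module ℂ T] (L : T →ₗ[ℂ] T) (R : Submodule ℂ T)
    [FiniteDimensional ℂ R] (hR : R ≠ ⊥) (h : ∀ u ∈ R, L u ∈ R) :
    ∃ e ∈ R, e ≠ 0 ∧ ∃ lam : ℂ, L e = lam • e := by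
  have : Nontrivial R := Submodule.nontrivial_iff_ne_bot.2 hR
  obtain ⟨lam, hlam⟩ := Module.End.exists_eigenvalue (L.restrict h)
  obtain ⟨e, he⟩ := hlam.exists_hasEigenvector
  exact ⟨e, e.2, fun h => he.2 (Subtype.ext h), lam, congrArg Subtype.val he.apply_eq_smul⟩

/-- **Stable finite-dimensional spaces of entire functions.** -/
theorem const_ent {S : ℂ[X]} (hS : 2 ≤ S.natDegree) (W : Submodule ℂ Ent) [FiniteDimensional ℂ W]
    (hW : ∀ h ∈ W, cm S h ∈ W) {h : Ent} (hh : h ∈ W) : ∃ c, h = algebraMap ℂ Ent c := by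
  classical
  obtain ⟨p, hp⟩ := exists_fixed hS
  let N : Ent →ₗ[ℂ] Ent :=
    { toFun := fun u => cm S u - u
      map_add' := fun a b => by
        rw [map_add]
        ring
      map_smul' := fun c a => by
        rw [map_smul, smul_sub]
        rfl }
  have hN : ∀ u : Ent, N u = cm S u - u := fun u => rfl
  have hNp : ∀ u : Ent, (N u).1 p = 0 := by
    intro u
    rw [hN]
    change (cm S u).1 p - u.1 p = 0
    rw [cm_apply, hp, sub_self]
  obtain ⟨R, hRd⟩ : ∃ R : Submodule ℂ Ent, R = W.map N := ⟨_, rfl⟩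
  have hRf : FiniteDimensional ℂ R := by
    rw [hRd]
    infer_instance
  by_cases hR : R = ⊥
  · by_cases h0 : h = 0
    · exact ⟨0, by rw [h0, map_zero]⟩
    refine eigen hS h0 (μ := 1) ?_
    have h1 : N h ∈ R := hRd ▸ Submodule.mem_map_of_mem hh
    rw [hR, Submodule.mem_bot, hN] at h1
    rw [one_smul]
    exact sub_eq_zero.1 h1
  · exfalso
    have hTR : ∀ u ∈ R, (cm S).toLinearMap u ∈ R := by
      rw [hRd]
      rintro _ ⟨u, hu, rfl⟩
      refine ⟨cm S u, hW u hu, ?_⟩
      rw [hN, hN]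
      change cm S (cm S u) - cm S u = cm S (cm S u - u)
      rw [map_sub]
    obtain ⟨e, he2, he0, lam, heS⟩ := exists_eig (cm S).toLinearMap R hR hTR
    obtain ⟨c, hc⟩ := eigen hS he0 (μ := lam) heS
    rw [hRd] at he2
    obtain ⟨u, -, hu⟩ := he2
    have h1 := hNp u
    rw [hu, hc] at h1
    apply he0
    rw [hc]
    have h2 : c = 0 := h1
    rw [h2, map_zero]

/-- **Stable finite-dimensional spaces of meromorphic functions.** -/
theorem const_mer {S : ℂ[X]} (hS : 2 ≤ S.natDegree) (H : Submodule ℂ Mer) [FiniteDimensional ℂ H]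
    (hH : ∀ h ∈ H, sc S hS h ∈ H) {h : Mer} (hh : h ∈ H) : ∃ c : ℂ, h = algebraMap ℂ Mer c := by
  classical
  obtain ⟨H', hH'⟩ : ∃ H' : Submodule ℂ Mer, H' = H ⊔ Submodule.span ℂ {1} := ⟨_, rfl⟩
  have hfd : FiniteDimensional ℂ H' := by
    rw [hH']
    infer_instance
  have hle : H ≤ H' := hH' ▸ le_sup_left
  have h1H : (1 : Mer) ∈ H' := by
    rw [hH']
    exact (le_sup_right : Submodule.span ℂ {1} ≤ H ⊔ Submodule.span ℂ {1})
      (Submodule.mem_span_singleton_self _)
  have hst : ∀ h ∈ H', sc S hS h ∈ H' := by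
    intro h hh
    rw [hH', Submodule.mem_sup] at hh
    obtain ⟨a, ha, b, hb, rfl⟩ := hh
    obtain ⟨c, rfl⟩ := Submodule.mem_span_singleton.1 hb
    rw [map_add, map_smul, map_one]
    exact H'.add_mem (hle (hH a ha)) (H'.smul_mem c h1H)
  have hsurj : ∀ h ∈ H', ∃ h' ∈ H', sc S hS h' = h := by
    let T : H' →ₗ[ℂ] H' := ((sc S hS).toLinearMap).restrict hst
    have hTi : Function.Injective T := by
      intro a b hab
      exact Subtype.ext (sc_inj hS (congrArg Subtype.val hab))
    have hTs := LinearMap.injective_iff_surjective.1 hTi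
    intro h hh
    obtain ⟨⟨u, hu⟩, hu'⟩ := hTs ⟨h, hh⟩
    exact ⟨u, hu, congrArg Subtype.val hu'⟩
  obtain ⟨b, hb, hden⟩ := exists_den H'
  have hbi := im_ne hb
  let A : Set Ent := {a | a ≠ 0 ∧ ∃ h ∈ H', im b * h = im a}
  have hbA : b ∈ A := ⟨hb, 1, h1H, mul_one _⟩
  let g : ℂ → ℕ := fun z => sInf ((fun a => od z a) '' A)
  have hg1 : ∀ z, ∀ a ∈ A, g z ≤ od z a := fun z a ha => Nat.sInf_le ⟨a, ha, rfl⟩
  have hg2 : ∀ z, ∃ a ∈ A, od z a = g z := fun z =>
    Nat.sInf_mem (s := (fun a => od z a) '' A) ⟨_, b, hbA, rfl⟩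
  have hrel : ∀ a a' : Ent, a ≠ 0 → a' ≠ 0 → ∀ h, im b * h = im a → im b * sc S hS h = im a' →
      ∀ z, od (S.eval z) b * ld S z + od z a' = od (S.eval z) a * ld S z + od z b := by
    intro a a' ha ha' h h1 h2 z
    have h3 : cm S b * a' = cm S a * b := by
      apply im_inj
      rw [im_mul, im_mul, ← h2, ← sc_im hS, ← sc_im hS, ← h1, map_mul]
      ring
    have hc : ∀ f : Ent, f ≠ 0 → cm S f ≠ 0 := fun f hf h0 => hf (cm_inj hS (h0.trans (map_zero _).symm))
    have h4 := congrArg (od z) h3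
    rw [od_mul (hc b hb) ha', od_mul (hc a ha) hb, od_cm hS hb, od_cm hS ha] at h4
    exact h4
  have hDrel : ∀ z, g z + od (S.eval z) b * ld S z = g (S.eval z) * ld S z + od z b := by
    intro z
    apply le_antisymm
    · obtain ⟨a, ⟨ha0, h, hh, hha⟩, hag⟩ := hg2 (S.eval z)
      obtain ⟨a', ha'⟩ := hden _ (hst h hh)
      have ha'0 : a' ≠ 0 := by
        rintro rfl
        have h5 : im b * sc S hS h = 0 := ha'.trans (map_zero _)
        have h6 : sc S hS h = 0 := (mul_eq_zero.1 h5).resolve_left hbi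
        have h7 : h = 0 := sc_inj hS (h6.trans (map_zero _).symm)
        rw [h7, mul_zero] at hha
        exact im_ne ha0 hha.symm
      have h5 := hrel a a' ha0 ha'0 h hha ha' z
      have h6 := hg1 z a' ⟨ha'0, _, hst h hh, ha'⟩
      rw [hag] at h5
      omega
    · obtain ⟨a', ⟨ha0, h, hh, hha⟩, hag⟩ := hg2 z
      obtain ⟨h', hh', rfl⟩ := hsurj h hh
      obtain ⟨a, ha⟩ := hden h' hh'
      have ha'0 : a ≠ 0 := by
        rintro rfl
        have h5 : im b * h' = 0 := ha.trans (map_zero _)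
        have h6 : h' = 0 := (mul_eq_zero.1 h5).resolve_left hbi
        rw [h6, map_zero, mul_zero] at hha
        exact im_ne ha0 hha.symm
      have h5 := hrel a a' ha'0 ha0 h' ha hha z
      have h6 := hg1 (S.eval z) a ⟨ha'0, _, hh', ha⟩
      have h7 := Nat.mul_le_mul_right (ld S z) h6
      omega
  have hD0 := no_div hS (D := fun z => od z b - g z) (fun z => by
      have h1 := hDrel z
      have h2 := hg1 z b hbA
      have h3 := hg1 (S.eval z) b hbA
      rw [Nat.sub_mul]
      have h4 := Nat.mul_le_mul_right (ld S z) h3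
      omega) (fun r => (zeros_fin hb r).subset (by
      rintro z ⟨h4, h5⟩
      refine ⟨?_, h5⟩
      by_contra h6
      have h7 := (od_eq_zero hb).2 h6
      omega))
  have hent : ∀ h ∈ H', ∃ u : Ent, im u = h := by
    intro h hh
    obtain ⟨a, ha⟩ := hden h hh
    by_cases ha0 : a = 0
    · refine ⟨0, ?_⟩
      rw [ha0] at ha
      have h5 : im b * h = 0 := ha.trans (map_zero _)
      rw [(mul_eq_zero.1 h5).resolve_left hbi]
      exact map_zero _
    · obtain ⟨u, hu⟩ := div_ent hb ha0 (fun z => by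
        have h1 := hg1 z a ⟨ha0, h, hh, ha⟩
        have h2 := hD0 z
        omega)
      refine ⟨u, ?_⟩
      rw [← hu, im_mul] at ha
      exact (mul_left_cancel₀ hbi ha).symm
  let W : Submodule ℂ Ent := H'.comap (IsScalarTower.toAlgHom ℂ Ent Mer).toLinearMap
  have hWm : ∀ u, u ∈ W ↔ im u ∈ H' := fun u => Iff.rfl
  have hWf : FiniteDimensional ℂ W := by
    let φ : W →ₗ[ℂ] H' :=
      { toFun := fun u => ⟨im u, u.2⟩
        map_add' := fun a b => Subtype.ext (map_add (algebraMap Ent Mer) _ _)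
        map_smul' := fun c a => Subtype.ext (im_smul c _) }
    refine FiniteDimensional.of_injective φ fun a b hab => ?_
    exact Subtype.ext (im_inj (congrArg Subtype.val hab))
  obtain ⟨u, rfl⟩ := hent h (hle hh)
  obtain ⟨c, hc⟩ := const_ent hS W (fun v hv => by
    rw [hWm, ← sc_im hS]
    exact hst _ hv) (h := u) (hle hh)
  refine ⟨c, ?_⟩
  rw [hc]
  rfl

end Pool.Agent.Run7.h718.SP
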