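import Pool.Agent.Run7.h718.SP.Eq
import Pool.Agent.Run7.h718.SP.Const
import Pool.Agent.Run7.h718.SA.Main
import Pool.Agent.Run7.h718.SA.Bog
import Pool.Agent.Run7.h718.NE.Thm

/-!
Entire curves which satisfy a rational functional equation with the substitution of a polynomial of
degree at least two: the theorem.
-/

set_option autoImplicit false
set_option linter.overlappingInstances false
set_option linter.unusedSectionVars false
set_option maxHeartbeats 1000000
set_option synthInstance.maxHeartbeats 400000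

open FF MvPolynomial Pool.Agent.W602.GT Pool.Agent.TH143.GT Pool.Agent.W603.BPR Pool.Agent.W603.BP
open Pool.Agent.Run7.h718.ND (Mer im im_inj im_ne im_mul fe evl exists_emb dim_pos)
open Pool.Agent.Run7.h718.NE (RegTensor tenF tenF_reg tenF_ne tenF_smul)
open Pool.Agent.Run7.h718.SA (FinQuot powF powF_smul powF_ne powF_reg)

namespace Pool.Agent.Run7.h718.SP

variable {n w : ℕ} {K : Type} [Field K] [Algebra ℂ K] {y : Fin (n + 1) → K}
  {f : ℂ → Fin (n + 1) → ℂ} {p : Ideal (MvPolynomial (Fin (n + 1)) ℂ)}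

/-- the embedding of the function field in a finitely generated stable field -/
theorem exists_diff (hgp : GenPt f Set.univ K w y) (hfd : ∀ j, Differentiable ℂ (fun z => f z j))
    (hfne : ∀ z, f z ≠ 0) {S : Polynomial ℂ} (hS : 2 ≤ S.natDegree) {m : ℕ} (hDE : FunEq S m f)
    {ι : K →ₐ[ℂ] Mer} (hι : ∀ (d : ℕ) (g1 g0 : MvPolynomial (Fin (n + 1)) ℂ),
      g1.IsHomogeneous d → g0.IsHomogeneous d → W602.GT.val y g0 ≠ 0 →
      ι (W602.GT.val y g1 / W602.GT.val y g0) =
        im (aeval (fe hfd) g1) / im (aeval (fe hfd) g0) ∧ aeval (fe hfd) g0 ≠ 0) :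
    ∃ (F : Type) (_ : Field F) (_ : Algebra ℂ F) (_ : Algebra.EssFiniteType ℂ F)
      (σ : F →ₐ[ℂ] F) (κ : F →ₐ[ℂ] Mer) (τ : K →ₐ[ℂ] F), (∀ r, κ (σ r) = sc S hS (κ r)) ∧
      (∀ r, κ (τ r) = ι r) := by
  have hne : ∃ k0, fe hfd k0 ≠ 0 := by
    by_contra hno
    push Not at hno
    apply hfne 0
    funext j
    have h1 := congrArg (evl 0) (hno j)
    rw [map_zero] at h1
    exact h1
  obtain ⟨F, hess, hF, hmem⟩ := exists_field hfd hS hne hDE
  have hιF : ∀ r, ι r ∈ F := by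
    have hle : (⊤ : IntermediateField ℂ K) ≤ F.comap ι := by
      rw [← hgp.gen]
      unfold coords
      rw [IntermediateField.adjoin_le_iff]
      rintro _ ⟨i, j, hj, rfl⟩
      change ι (y i / y j) ∈ F
      have h1 := (hι 1 (X i) (X j) (isHomogeneous_X _ _) (isHomogeneous_X _ _)
        (by rwa [ND.val_X])).1
      rw [ND.val_X, ND.val_X, ND.aeval_fe_X, ND.aeval_fe_X] at h1
      rw [h1]
      exact hmem i j
    exact fun r => hle (IntermediateField.mem_top (x := r))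
  let σ : F →ₐ[ℂ] F :=
    { toFun := fun r => ⟨sc S hS r, hF r r.2⟩
      map_one' := Subtype.ext (map_one (sc S hS))
      map_mul' := fun a b => Subtype.ext (map_mul (sc S hS) (a : Mer) (b : Mer))
      map_zero' := Subtype.ext (map_zero (sc S hS))
      map_add' := fun a b => Subtype.ext (map_add (sc S hS) (a : Mer) (b : Mer))
      commutes' := fun c => Subtype.ext ((sc S hS).commutes c) }
  let τ : K →ₐ[ℂ] F :=
    { toFun := fun r => ⟨ι r, hιF r⟩
      map_one' := Subtype.ext (map_one ι)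
      map_mul' := fun a b => Subtype.ext (map_mul ι a b)
      map_zero' := Subtype.ext (map_zero ι)
      map_add' := fun a b => Subtype.ext (map_add ι a b)
      commutes' := fun c => Subtype.ext (ι.commutes c) }
  exact ⟨F, inferInstance, inferInstance, hess, σ, F.val, τ, fun r => rfl, fun r => rfl⟩

/-- quotients in stable finite-dimensional spaces are constant -/
theorem const_of_quot {F : Type} [Field F] [Algebra ℂ F] {S : Polynomial ℂ} (hS : 2 ≤ S.natDegree)
    (σ : F →ₐ[ℂ] F) (κ : F →ₐ[ℂ] Mer) (hκ : ∀ r, κ (σ r) = sc S hS (κ r)) {r : F} {k : ℕ}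
    (h : FinQuot σ (σ^[k] r)) : ∃ c : ℂ, r = algebraMap ℂ F c := by
  obtain ⟨H, a, hHf, hHs, ha, hra, ha0⟩ := h
  have hst : ∀ h ∈ H.map κ.toLinearMap, sc S hS h ∈ H.map κ.toLinearMap := by
    rintro _ ⟨c, hc, rfl⟩
    exact ⟨σ c, hHs c hc, hκ c⟩
  obtain ⟨c1, h1⟩ := const_mer hS (H.map κ.toLinearMap) hst (h := κ a) ⟨a, ha, rfl⟩
  obtain ⟨c2, h2⟩ := const_mer hS (H.map κ.toLinearMap) hst (h := κ (σ^[k] r * a)) ⟨_, hra, rfl⟩
  have hκi : Function.Injective κ := κ.toRingHom.injective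
  have h3 : a = algebraMap ℂ F c1 := hκi (by rw [h1, κ.commutes])
  have h4 : σ^[k] r * a = algebraMap ℂ F c2 := hκi (by rw [h2, κ.commutes])
  have hc1 : c1 ≠ 0 := by
    rintro rfl
    rw [map_zero] at h3
    exact ha0 h3
  have h5 : σ^[k] r = algebraMap ℂ F (c2 / c1) := by
    rw [h3] at h4
    rw [map_div₀, ← h4, mul_div_cancel_right₀]
    intro h0
    exact ha0 (h3.trans h0)
  refine ⟨c2 / c1, ?_⟩
  have h6 : σ^[k] (algebraMap ℂ F (c2 / c1)) = algebraMap ℂ F (c2 / c1) :=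
    Function.iterate_fixed (σ.commutes _) k
  have h7 : Function.Injective (σ^[k]) := Function.Injective.iterate σ.toRingHom.injective k
  exact h7 (h5.trans h6.symm)

theorem not_indep {K : Type} [Field K] [Algebra ℂ K] {u : ℕ} (hu : 0 < u) {r : Fin u → K}
    (hr : AlgebraicIndependent ℂ r) (h : ∀ i, ∃ c : ℂ, r i = algebraMap ℂ K c) : False := by
  obtain ⟨c, hc⟩ := h ⟨0, hu⟩
  have h1 := hr.transcendental ⟨0, hu⟩
  rw [hc] at h1
  exact h1 (isAlgebraic_algebraMap c)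

/-- **The theorem.** -/
theorem curve_main (hy : FunField p 1 K w y) (hf : EntireCurve p 1 f)
    (hd : ZDense p f Set.univ) {S : Polynomial ℂ} (hS : 2 ≤ S.natDegree) {m : ℕ}
    (hDE : FunEq S m f) :
    (∀ (L : Type) [Field L] [Algebra ℂ L] [Algebra.EssFiniteType ℂ L] (_ : L →ₐ[ℂ] K) (u : ℕ),
      Algebra.trdeg ℂ L = u →
      (∀ (M : ℕ) (θ : MultilinearMap L (fun _ : Fin M => Derivation ℂ L L) L) (r : L),
        θ ≠ 0 → RegTensor u θ → RegTensor u (r • θ) → ∃ c : ℂ, r = algebraMap ℂ L c) ∧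
      Special ℂ L u (fun _ => False) ∧ ¬ KodGe ℂ L u (fun _ => False) 1) ∧
    ¬ GeneralType ℂ K w := by
  classical
  obtain ⟨hfd, hfne, -, -⟩ := ent_data hf
  have hgp : GenPt f Set.univ K w y := hy.genPt (fun z _ => (hf.2.1 z).2.1) hd
  have hw : Algebra.trdeg ℂ K = w := hgp.dim
  have hw0 : 0 < w := dim_pos hgp hfd hf.2.2 hfne
  have hess : Algebra.EssFiniteType ℂ K := ND.ess_of_coords hgp.gen
  obtain ⟨ι, hι⟩ := exists_emb hgp hfd
  obtain ⟨F, iF1, iF2, iF3, σ, κ, τ, hκ, hκτ⟩ := exists_diff hgp hfd hfne hS hDE hι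
  have hten : ∀ (L : Type) [Field L] [Algebra ℂ L] [Algebra.EssFiniteType ℂ L] (φ : L →ₐ[ℂ] K)
      (u : ℕ), Algebra.trdeg ℂ L = u → ∀ (M : ℕ)
      (θ : MultilinearMap L (fun _ : Fin M => Derivation ℂ L L) L) (r : L),
      θ ≠ 0 → RegTensor u θ → RegTensor u (r • θ) → ∃ c : ℂ, r = algebraMap ℂ L c := by
    intro L _ _ _ φ u hu M θ r h0 hθ hr
    obtain ⟨k, hk⟩ := SA.main_abs hu σ (τ.comp φ) hθ h0 hr
    obtain ⟨c, hc⟩ := const_of_quot hS σ κ hκ hk
    refine ⟨c, (τ.comp φ).toRingHom.injective ?_⟩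
    exact hc.trans ((τ.comp φ).commutes c).symm
  -- pluricanonical forms of dominated varieties
  have hplu : ∀ (L : Type) [Field L] [Algebra ℂ L] [Algebra.EssFiniteType ℂ L] (_ : L →ₐ[ℂ] K)
      (u : ℕ), Algebra.trdeg ℂ L = u → ∀ (N : ℕ) (ω1 ω2 : (Fin u → Derivation ℂ L L) → L),
      IsPluri N ω1 → IsPluri N ω2 → (∀ P : Place ℂ L, Divisorial u P → RegAt P ω1) →
      (∀ P : Place ℂ L, Divisorial u P → RegAt P ω2) → ∀ D : Fin u → Derivation ℂ L L,
      ω1 D ≠ 0 → ∃ c : ℂ, ω2 D / ω1 D = algebraMap ℂ L c := by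
    intro L _ _ _ φ u hu N ω1 ω2 h1 h2 hr1 hr2 D hD
    obtain ⟨x, E, hx, hE⟩ := Pool.Agent.Y172.exists_crd hu (k := ℂ) (K := L)
    have e1 : ω1 D = (Matrix.of fun i j => D i (x j)).det ^ N * ω1 E :=
      congrFun (ND.eq_frm hx hE h1) D
    have e2 : ω2 D = (Matrix.of fun i j => D i (x j)).det ^ N * ω2 E :=
      congrFun (ND.eq_frm hx hE h2) D
    have h3 : (Matrix.of fun i j => D i (x j)).det ^ N ≠ 0 := by
      intro h0
      rw [h0, zero_mul] at e1
      exact hD e1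
    have h4 : ω1 E ≠ 0 := fun h0 => hD (by rw [e1, h0, mul_zero])
    have h5 : ω2 D / ω1 D = ω2 E / ω1 E := by rw [e1, e2, mul_div_mul_left _ _ h3]
    rw [h5]
    exact hten L φ u hu _ (tenF x N (ω1 E)) _ (tenF_ne hE N h4) (tenF_reg hu hx hE h1 hr1) (by
      rw [tenF_smul, div_mul_cancel₀ _ h4]
      exact tenF_reg hu hx hE h2 hr2)
  -- special
  have hspec : ∀ (L : Type) [Field L] [Algebra ℂ L] [Algebra.EssFiniteType ℂ L] (_ : L →ₐ[ℂ] K)
      (u : ℕ), Algebra.trdeg ℂ L = u → Special ℂ L u (fun _ => False) := by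
    intro L _ _ _ φ u hu p hp
    rintro ⟨θ, hθ, N, hN, g, -, hreg, hg0, hind⟩
    have hη : θ.toMultilinearMap ≠ 0 := by
      intro h0
      apply hθ
      ext D
      exact congrArg (fun T : MultilinearMap L (fun _ : Fin p => Derivation ℂ L L) L => T D) h0
    have hregT : ∀ j, RegTensor u (powF θ.toMultilinearMap N (g j)) := fun j =>
      powF_reg hN fun P hP D hD => hreg P hP id D hD j
    exact not_indep hp hind fun i =>
      hten L φ u hu _ (powF θ.toMultilinearMap N (g 0)) _ (powF_ne hη N hg0) (hregT 0) (by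
        rw [powF_smul, div_mul_cancel₀ _ hg0]
        exact hregT _)
  refine ⟨fun L _ _ _ φ u hu => ⟨hten L φ u hu, hspec L φ u hu, ?_⟩, ?_⟩
  · rintro ⟨N, hN, ω, hω, D, hD, hind⟩
    have hreg : ∀ j, ∀ P : Place ℂ L, Divisorial u P → RegAt P (ω j) := fun j P hP =>
      (hω j).2.2 P hP id
    exact not_indep one_pos hind fun i =>
      hplu L φ u hu N (ω 0) (ω i.succ) (hω 0).1 (hω i.succ).1 (hreg 0) (hreg _) D hD
  · rintro ⟨-, N, hN, ω, hω, hreg, D, hD, hind⟩
    exact not_indep hw0 hind fun i =>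
      hplu K (AlgHom.id ℂ K) w hw N (ω 0) (ω i.succ) (hω 0) (hω i.succ)
        (fun P hP => hreg P hP 0) (fun P hP => hreg P hP _) D hD

end Pool.Agent.Run7.h718.SP
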