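import Pool.Agent.Run7.h718.ND.Lau

/-!
The substitution of a polynomial of degree at least two in entire and meromorphic functions.
-/

set_option autoImplicit false
set_option maxHeartbeats 1000000

open Pool.Agent.Run7.h718.ND

namespace Pool.Agent.Run7.h718.SP

open Set Filter Topology Polynomial

theorem surj {S : ℂ[X]} (hS : 2 ≤ S.natDegree) (w : ℂ) : ∃ z, S.eval z = w := by
  have h1 : (S - C w).degree ≠ 0 := by
    have h2 : (S - C w).natDegree = S.natDegree := natDegree_sub_C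
    intro h3
    have h4 := natDegree_eq_zero_iff_degree_le_zero.2 h3.le
    omega
  obtain ⟨z, hz⟩ := IsAlgClosed.exists_root _ h1
  refine ⟨z, ?_⟩
  rw [IsRoot.def, eval_sub, eval_C, sub_eq_zero] at hz
  exact hz

theorem exists_fixed {S : ℂ[X]} (hS : 2 ≤ S.natDegree) : ∃ z, S.eval z = z := by
  have h1 : (S - X).degree ≠ 0 := by
    have h2 : (S - X : ℂ[X]).natDegree = S.natDegree := natDegree_sub_eq_left_of_natDegree_lt (by
      rw [natDegree_X]
      omega)
    intro h3
    have h4 := natDegree_eq_zero_iff_degree_le_zero.2 h3.le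
    omega
  obtain ⟨z, hz⟩ := IsAlgClosed.exists_root _ h1
  refine ⟨z, ?_⟩
  rw [IsRoot.def, eval_sub, eval_X, sub_eq_zero] at hz
  exact hz

/-- substitution of the polynomial `S` -/
noncomputable def cm (S : ℂ[X]) : Ent →ₐ[ℂ] Ent where
  toFun f := ⟨fun z => f.1 (S.eval z), (show Differentiable ℂ f.1 from f.2).comp S.differentiable⟩
  map_one' := rfl
  map_mul' _ _ := rfl
  map_zero' := rfl
  map_add' _ _ := rfl
  commutes' _ := rfl

theorem cm_apply (S : ℂ[X]) (f : Ent) (z : ℂ) : (cm S f).1 z = f.1 (S.eval z) := rfl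

theorem cm_inj {S : ℂ[X]} (hS : 2 ≤ S.natDegree) : Function.Injective (cm S) := by
  intro f g h
  apply Subtype.ext
  funext z
  obtain ⟨x, rfl⟩ := surj hS z
  exact congrFun (congrArg Subtype.val h) x

theorem ch_inj {S : ℂ[X]} (hS : 2 ≤ S.natDegree) :
    Function.Injective ((IsScalarTower.toAlgHom ℂ Ent Mer).comp (cm S)) := fun _ _ h =>
  cm_inj hS (im_inj h)

/-- substitution of the polynomial `S` in meromorphic functions -/
noncomputable def sc (S : ℂ[X]) (hS : 2 ≤ S.natDegree) : Mer →ₐ[ℂ] Mer :=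
  IsFractionRing.liftAlgHom (K := Mer) (ch_inj hS)

theorem sc_im {S : ℂ[X]} (hS : 2 ≤ S.natDegree) (f : Ent) : sc S hS (im f) = im (cm S f) :=
  IsFractionRing.lift_algebraMap (K := Mer) (ch_inj hS) f

theorem sc_inj {S : ℂ[X]} (hS : 2 ≤ S.natDegree) : Function.Injective (sc S hS) :=
  (sc S hS).toRingHom.injective

/-- the iterates of the substitution -/
theorem cm_pow_apply (S : ℂ[X]) (k : ℕ) (f : Ent) (z : ℂ) :
    ((cm S)^[k] f).1 z = f.1 ((fun x => S.eval x)^[k] z) := by
  induction k generalizing f z with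
  | zero => rfl
  | succ k ih =>
    rw [Function.iterate_succ_apply, ih, cm_apply, Function.iterate_succ_apply']

/-! ### orders of vanishing -/

/-- the order of vanishing at `z` -/
noncomputable def od (z : ℂ) (f : Ent) : ℕ := analyticOrderNatAt f.1 z

theorem od_ne_top {f : Ent} (hf : f ≠ 0) (z : ℂ) : analyticOrderAt f.1 z ≠ ⊤ := by
  intro h
  rw [analyticOrderAt_eq_top] at h
  have hb0 : ∃ z, f.1 z ≠ 0 := by
    by_contra h
    push Not at h
    exact hf (Subtype.ext (funext h))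
  exact not_ev_zero (show Differentiable ℂ f.1 from f.2) hb0 z h

theorem od_mul {f g : Ent} (hf : f ≠ 0) (hg : g ≠ 0) (z : ℂ) : od z (f * g) = od z f + od z g :=
  analyticOrderNatAt_mul (ent_an f z (mem_univ z)) (ent_an g z (mem_univ z)) (od_ne_top hf z)
    (od_ne_top hg z)

theorem od_eq_zero {f : Ent} (hf : f ≠ 0) {z : ℂ} : od z f = 0 ↔ f.1 z ≠ 0 := by
  unfold od
  rw [← Nat.cast_inj (R := ℕ∞), Nat.cast_analyticOrderNatAt (od_ne_top hf z), Nat.cast_zero,
    (ent_an f z (mem_univ z)).analyticOrderAt_eq_zero]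

theorem pol_sub_an (S : ℂ[X]) (z : ℂ) : AnalyticAt ℂ (fun x => S.eval x) z :=
  (ent_an (pol S) z (mem_univ z))

/-- the local degree of `S` -/
noncomputable def ld (S : ℂ[X]) (z : ℂ) : ℕ := analyticOrderNatAt (fun x => S.eval x - S.eval z) z

theorem ld_ne_top {S : ℂ[X]} (hS : 2 ≤ S.natDegree) (z : ℂ) :
    analyticOrderAt (fun x => S.eval x - S.eval z) z ≠ ⊤ := by
  have h1 : pol (S - C (S.eval z)) ≠ 0 := by
    intro h0
    obtain ⟨x, hx⟩ := surj hS (S.eval z + 1)
    have h2 := congrFun (congrArg Subtype.val h0) x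
    rw [pol_apply, eval_sub, eval_C, hx] at h2
    have h3 : (1 : ℂ) = 0 := by
      have : S.eval z + 1 - S.eval z = (1 : ℂ) := by ring
      rw [← this]
      exact h2
    exact one_ne_zero h3
  have h2 := od_ne_top h1 z
  have h3 : (pol (S - C (S.eval z))).1 = fun x => S.eval x - S.eval z := by
    funext x
    rw [pol_apply, eval_sub, eval_C]
  rwa [h3] at h2

theorem od_cm {S : ℂ[X]} (hS : 2 ≤ S.natDegree) {f : Ent} (hf : f ≠ 0) (z : ℂ) :
    od z (cm S f) = od (S.eval z) f * ld S z := by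
  have h1 := AnalyticAt.analyticOrderAt_comp (f := f.1) (g := fun x => S.eval x) (z₀ := z)
    (ent_an f _ (mem_univ _)) (pol_sub_an S z)
  have h2 : cm S f ≠ 0 := fun h => hf (cm_inj hS (h.trans (map_zero _).symm))
  unfold od ld
  rw [← Nat.cast_inj (R := ℕ∞), Nat.cast_mul, Nat.cast_analyticOrderNatAt (od_ne_top h2 z),
    Nat.cast_analyticOrderNatAt (od_ne_top hf _), Nat.cast_analyticOrderNatAt (ld_ne_top hS z)]
  exact h1

theorem ld_pos {S : ℂ[X]} (hS : 2 ≤ S.natDegree) (z : ℂ) : 0 < ld S z := by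
  rw [Nat.pos_iff_ne_zero]
  intro h0
  have h1 : analyticOrderAt (fun x => S.eval x - S.eval z) z = 0 := by
    rw [← Nat.cast_analyticOrderNatAt (ld_ne_top hS z)]
    unfold ld at h0
    rw [h0, Nat.cast_zero]
  have h2 : AnalyticAt ℂ (fun x => S.eval x - S.eval z) z := (pol_sub_an S z).sub analyticAt_const
  rw [h2.analyticOrderAt_eq_zero] at h1
  exact h1 (sub_self _)

theorem ld_one {S : ℂ[X]} (hS : 2 ≤ S.natDegree) {z : ℂ} (h : ld S z = 1) :
    S.derivative.eval z ≠ 0 := by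
  intro h0
  have h2 : AnalyticAt ℂ (fun x => S.eval x - S.eval z) z := (pol_sub_an S z).sub analyticAt_const
  have h1 : analyticOrderAt (fun x => S.eval x - S.eval z) z = 1 := by
    rw [← Nat.cast_analyticOrderNatAt (ld_ne_top hS z)]
    unfold ld at h
    rw [h, Nat.cast_one]
  have h3 := h2.analyticOrderAt_deriv_add_one
  have h4 : deriv (fun x => S.eval x - S.eval z) z = 0 := by
    rw [deriv_sub_const]
    rw [← h0]
    exact S.deriv
  have h5 : analyticOrderAt (fun x => (S.eval x - S.eval z) - (S.eval z - S.eval z)) z = 1 := by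
    simpa using h1
  simp only [sub_self, sub_zero] at h3 h5
  have h6 : analyticOrderAt (deriv fun x => S.eval x - S.eval z) z ≠ 0 := by
    rw [analyticOrderAt_ne_zero]
    exact ⟨h2.deriv, h4⟩
  rw [h1] at h3
  have h7 : analyticOrderAt (deriv fun x => S.eval x - S.eval z) z = 0 := by
    by_contra h8
    have h9 : (1 : ℕ∞) ≤ analyticOrderAt (deriv fun x => S.eval x - S.eval z) z :=
      Order.one_le_iff_ne_zero.2 h8
    have h10 : (1 : ℕ∞) + 1 ≤ 1 := by
      calc (1 : ℕ∞) + 1 ≤ analyticOrderAt (deriv fun x => S.eval x - S.eval z) z + 1 := by gcongr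
        _ = 1 := h3
    exact absurd h10 (by decide)
  exact h6 h7

/-- the points outside a large disc escape -/
theorem escape {S : ℂ[X]} (hS : 2 ≤ S.natDegree) : ∃ R : ℝ, ∀ z : ℂ, R < ‖z‖ → ‖z‖ < ‖S.eval z‖ := by
  have h1 : Tendsto (fun z : ℂ => ‖(S - 0).eval z‖) (cocompact ℂ) atTop := by
    rw [sub_zero]
    exact S.tendsto_norm_atTop (by
      rw [degree_eq_natDegree (by rintro rfl; simp at hS)]
      exact_mod_cast (by omega : 0 < S.natDegree)) tendsto_norm_cocompact_atTop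
  -- write `S = X * Q + C c`
  obtain ⟨Q, c, hQ⟩ : ∃ (Q : ℂ[X]) (c : ℂ), S = X * Q + C c :=
    ⟨S.divX, S.coeff 0, by rw [mul_comm]; exact (S.divX_mul_X_add).symm⟩
  have hQd : 0 < Q.degree := by
    by_contra hcon
    push Not at hcon
    have h2 : Q.natDegree = 0 := natDegree_eq_zero_iff_degree_le_zero.2 hcon
    have h3 : S.natDegree ≤ 1 := by
      rw [hQ]
      refine (natDegree_add_le _ _).trans (max_le (natDegree_mul_le.trans ?_) ?_)
      · rw [natDegree_X, h2]
      · rw [natDegree_C]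
        omega
    omega
  have h2 := Q.tendsto_norm_atTop hQd (tendsto_norm_cocompact_atTop (E := ℂ))
  have h3 : ∀ᶠ z : ℂ in cocompact ℂ, 2 + ‖c‖ ≤ ‖Q.eval z‖ := h2.eventually_ge_atTop _
  have h4 : ∀ᶠ z : ℂ in cocompact ℂ, 2 + ‖c‖ ≤ ‖Q.eval z‖ := h3
  rw [← Metric.cobounded_eq_cocompact, (Metric.hasBasis_cobounded_compl_closedBall (0 : ℂ)).eventually_iff] at h4
  obtain ⟨R, -, hR⟩ := h4
  refine ⟨max R 1, fun z hz => ?_⟩
  have hz1 : R < ‖z‖ := lt_of_le_of_lt (le_max_left _ _) hz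
  have hz2 : 1 < ‖z‖ := lt_of_le_of_lt (le_max_right _ _) hz
  have h5 := hR (x := z) (by simpa using hz1)
  have h6 : S.eval z = z * Q.eval z + c := by rw [hQ]; simp
  have h7 : ‖z * Q.eval z‖ - ‖c‖ ≤ ‖S.eval z‖ := by
    rw [h6]
    have := norm_sub_norm_le (z * Q.eval z) (-c)
    rw [sub_neg_eq_add, norm_neg] at this
    exact this
  have h8 : ‖z‖ * (2 + ‖c‖) ≤ ‖z * Q.eval z‖ := by
    rw [norm_mul]
    exact mul_le_mul_of_nonneg_left h5 (norm_nonneg _)
  nlinarith [norm_nonneg c, norm_nonneg z]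

/-- **The backward dynamics**: no nonzero divisor is multiplied by the local degrees. -/
theorem no_div {S : ℂ[X]} (hS : 2 ≤ S.natDegree) {D : ℂ → ℕ} (hD : ∀ z, D z = D (S.eval z) * ld S z)
    (hfin : ∀ r : ℝ, {z : ℂ | D z ≠ 0 ∧ ‖z‖ ≤ r}.Finite) (z : ℂ) : D z = 0 := by
  classical
  by_contra hz
  obtain ⟨R0, hR0⟩ := escape hS
  obtain ⟨R, hR⟩ : ∃ R, R = max R0 ‖z‖ := ⟨_, rfl⟩
  obtain ⟨P, hP⟩ : ∃ P : Finset ℂ, ∀ x, x ∈ P ↔ D x ≠ 0 ∧ ‖x‖ ≤ R :=
    ⟨(hfin R).toFinset, fun x => by rw [Set.Finite.mem_toFinset]; rfl⟩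
  have hPne : P.Nonempty := ⟨z, (hP z).2 ⟨hz, hR ▸ le_max_right _ _⟩⟩
  -- backward invariance
  have hback : ∀ x, S.eval x ∈ P → x ∈ P := by
    intro x hx
    obtain ⟨h1, h2⟩ := (hP _).1 hx
    refine (hP x).2 ⟨?_, ?_⟩
    · rw [hD]
      exact mul_ne_zero h1 (ld_pos hS x).ne'
    · by_contra hcon
      push Not at hcon
      have h3 := hR0 x (lt_of_le_of_lt (hR ▸ le_max_left _ _) hcon)
      linarith
  obtain ⟨m, hm, hmax⟩ := P.exists_max_image D hPne
  -- the points with the maximal value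
  let Q : Finset ℂ := P.filter fun x => D x = D m
  have hQ : ∀ x, x ∈ Q ↔ x ∈ P ∧ D x = D m := fun x => Finset.mem_filter
  have hDm : 0 < D m := Nat.pos_of_ne_zero ((hP m).1 hm).1
  have hQback : ∀ x, S.eval x ∈ Q → x ∈ Q ∧ ld S x = 1 := by
    intro x hx
    obtain ⟨h1, h2⟩ := (hQ _).1 hx
    have h3 := hback x h1
    have h4 := hmax x h3
    have h5 := hD x
    rw [h2] at h5
    have h6 := ld_pos hS x
    have h7 : ld S x = 1 := by
      by_contra h8
      have h9 : 2 ≤ ld S x := by omega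
      have : D m * 2 ≤ D m * ld S x := Nat.mul_le_mul_left _ h9
      omega
    refine ⟨(hQ x).2 ⟨h3, ?_⟩, h7⟩
    rw [h5, h7, mul_one]
  -- the fibres have at least two points
  let Q' : Finset ℂ := Q.filter fun x => S.eval x ∈ Q
  have hcard : ∀ y ∈ Q, 2 ≤ (Q'.filter fun x => S.eval x = y).card := by
    intro y hy
    have hne : S - C y ≠ 0 := by
      intro h0
      have h2 : (S - C y).natDegree = S.natDegree := natDegree_sub_C
      rw [h0, natDegree_zero] at h2
      omega
    have hsub : (S - C y).roots.toFinset ⊆ Q'.filter fun x => S.eval x = y := by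
      intro x hx
      rw [Multiset.mem_toFinset, mem_roots hne, IsRoot.def, eval_sub, eval_C, sub_eq_zero] at hx
      rw [Finset.mem_filter, Finset.mem_filter]
      exact ⟨⟨(hQback x (by rw [hx]; exact hy)).1, by rw [hx]; exact hy⟩, hx⟩
    refine le_trans ?_ (Finset.card_le_card hsub)
    have hnd : (S - C y).roots.Nodup := by
      rw [Multiset.nodup_iff_count_le_one]
      intro x
      rw [count_roots]
      by_contra hcon
      push Not at hcon
      rw [one_lt_rootMultiplicity_iff_isRoot hne] at hcon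
      obtain ⟨h1, h2⟩ := hcon
      rw [IsRoot.def, eval_sub, eval_C, sub_eq_zero] at h1
      rw [IsRoot.def, derivative_sub, derivative_C, sub_zero] at h2
      exact ld_one hS (hQback x (by rw [h1]; exact hy)).2 h2
    rw [Multiset.toFinset_card_of_nodup hnd, IsAlgClosed.card_roots_eq_natDegree]
    rw [natDegree_sub_C]
    exact hS
  have h1 : Q'.card = ∑ y ∈ Q, (Q'.filter fun x => S.eval x = y).card :=
    Finset.card_eq_sum_card_fiberwise fun x hx => (Finset.mem_filter.1 hx).2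
  have h4 : Q'.card ≤ Q.card := Finset.card_le_card (Finset.filter_subset _ _)
  have h2 : ∑ _y ∈ Q, 2 ≤ ∑ y ∈ Q, (Q'.filter fun x => S.eval x = y).card :=
    Finset.sum_le_sum hcard
  rw [Finset.sum_const, smul_eq_mul] at h2
  have h3 : 0 < Q.card := Finset.card_pos.2 ⟨m, (hQ m).2 ⟨hm, rfl⟩⟩
  omega

end Pool.Agent.Run7.h718.SP
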