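import Pool.Agent.Run7.h718.NE.Defs

/-!
Holomorphic curves in the projective space which satisfy a functional equation with the
substitution of a polynomial.
-/

set_option autoImplicit false

open FF Pool.Agent.W602.GT

namespace Pool.Agent.Run7.h718.SP

/-- The products `f_{t 0} (z) f_{t 1} (s (z)) ... f_{t (m - 1)} (s^{m - 1} (z))` of the homogeneous
coordinates of the points `f z`, `f (s (z))`, ..., `f (s^{m - 1} (z))`, where `s^k` is the `k`-th
iterate of the polynomial `s`. -/
noncomputable def segS {n : ℕ} (s : Polynomial ℂ) (m : ℕ) (f : ℂ → Fin (n + 1) → ℂ) (z : ℂ)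
    (t : Fin m → Fin (n + 1)) : ℂ :=
  ∏ k : Fin m, f ((fun x => s.eval x)^[k] z) (t k)

/-- The curve with the homogeneous coordinates `f` satisfies a rational functional equation of
order `m` with the substitution `s`: `f (s^m (z))`, where `s^m` is the `m`-th iterate of `s`, is
proportional to the vector of the values of the `P i`, forms of the same degree in the products of
the coordinates of `f z`, ..., `f (s^{m - 1} (z))` (thus multihomogeneous forms in these points),
not all vanishing along the curve, whose coefficients are polynomials in entire functions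
`c 1, ..., c l` such that the `c i (s (z))` are rational functions of `c 1 z, ..., c l z`. For
example `l = 1` and `c z = z`, and then the coefficients are polynomials in `z`. -/
def FunEq {n : ℕ} (s : Polynomial ℂ) (m : ℕ) (f : ℂ → Fin (n + 1) → ℂ) : Prop :=
  ∃ (l : ℕ) (c : ℂ → Fin l → ℂ) (R0 : MvPolynomial (Fin l) ℂ) (R : Fin l → MvPolynomial (Fin l) ℂ)
    (e : ℕ) (P : Fin (n + 1) → MvPolynomial (Fin m → Fin (n + 1)) (MvPolynomial (Fin l) ℂ)),
    (∀ i, Differentiable ℂ fun z => c z i) ∧ (∃ z, MvPolynomial.eval (c z) R0 ≠ 0) ∧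
    (∀ z i, c (s.eval z) i * MvPolynomial.eval (c z) R0 = MvPolynomial.eval (c z) (R i)) ∧
    (∀ i, (P i).IsHomogeneous e) ∧ (∃ z i, NE.pev (P i) (c z) (segS s m f z) ≠ 0) ∧
    ∀ z i j, f ((fun x => s.eval x)^[m] z) i * NE.pev (P j) (c z) (segS s m f z) =
      f ((fun x => s.eval x)^[m] z) j * NE.pev (P i) (c z) (segS s m f z)

end Pool.Agent.Run7.h718.SP
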