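import Pool.Agent.Run7.h718.SP.Defs
import Pool.Agent.Run7.h718.SP.Comp
import Pool.Agent.Run7.h718.NE.Eq

/-!
The field of a curve which satisfies a functional equation with the substitution of a polynomial.
-/

set_option autoImplicit false
set_option linter.overlappingInstances false
set_option linter.unusedSectionVars false
set_option maxHeartbeats 1000000
set_option synthInstance.maxHeartbeats 400000

open MvPolynomial
open Pool.Agent.Run7.h718.ND (Mer Ent im im_inj im_ne im_mul fe evl evl_apply ent_ext)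
open Pool.Agent.Run7.h718.NE (pev eval₂_scale evl_aeval)

namespace Pool.Agent.Run7.h718.SP

theorem exists_field {n : ℕ} {f : ℂ → Fin (n + 1) → ℂ}
    (hd : ∀ j, Differentiable ℂ (fun z => f z j)) {S : Polynomial ℂ} (hS : 2 ≤ S.natDegree) {m : ℕ}
    (hne : ∃ k0, fe hd k0 ≠ 0) (hDE : FunEq S m f) :
    ∃ K : IntermediateField ℂ Mer, Algebra.EssFiniteType ℂ K ∧ (∀ x ∈ K, sc S hS x ∈ K) ∧
      ∀ i j, im (fe hd i) / im (fe hd j) ∈ K := by
  obtain ⟨l, c, R0, R, e, P, hc, ⟨zR, hR0⟩, hR, hP, ⟨z0, i0, hz0⟩, heq⟩ := hDE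
  obtain ⟨k0, hk0⟩ := hne
  let cE : Fin l → Ent := fun i => ⟨fun z => c z i, hc i⟩
  let φ : MvPolynomial (Fin l) ℂ →+* Ent := (aeval cE : MvPolynomial (Fin l) ℂ →ₐ[ℂ] Ent)
  have hφ : ∀ z G, evl z (φ G) = eval (c z) G := fun z G => evl_aeval cE G z
  let cI : ℕ → Ent → Ent := fun k => (cm S)^[k]
  have hcI : ∀ k g z, evl z (cI k g) = g.1 ((fun x => S.eval x)^[k] z) := fun k g z =>
    cm_pow_apply S k g z
  have hcI0 : ∀ k g, g ≠ 0 → cI k g ≠ 0 := by
    intro k
    induction k with
    | zero => exact fun g hg => hg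
    | succ k ih =>
      intro g hg h0
      have h1 : cI (k + 1) g = cm S (cI k g) := Function.iterate_succ_apply' _ _ _
      rw [h1] at h0
      exact ih g hg (cm_inj hS (h0.trans (map_zero _).symm))
  let segE : (Fin m → Fin (n + 1)) → Ent := fun s => ∏ k : Fin m, cI k (fe hd (s k))
  have hseg : ∀ z s, evl z (segE s) = segS S m f z s := by
    intro z s
    change evl z (∏ k : Fin m, cI k (fe hd (s k))) = _
    rw [map_prod]
    exact Finset.prod_congr rfl fun k _ => hcI _ _ _
  let pe : Fin (n + 1) → Ent := fun i => eval₂ φ segE (P i)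
  have hpev : ∀ z i, evl z (pe i) = pev (P i) (c z) (segS S m f z) := by
    intro z i
    change evl z (eval₂ φ segE (P i)) = _
    rw [eval₂_comp_left (evl z)]
    have h1 : (evl z).comp φ = eval (c z) := RingHom.ext fun G => hφ z G
    have h2 : (evl z : Ent → ℂ) ∘ segE = segS S m f z := funext fun s => hseg z s
    rw [h1, h2]
    rfl
  have hpe : ∀ i j, cI m (fe hd i) * pe j = cI m (fe hd j) * pe i := by
    intro i j
    apply ent_ext
    intro z
    rw [map_mul, map_mul, hpev, hpev, hcI, hcI]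
    exact heq z i j
  have hcmp0 : ∀ (k : ℕ), cI k (fe hd k0) ≠ 0 := fun k => hcI0 k _ hk0
  have hpe0 : pe i0 ≠ 0 := by
    intro h0
    apply hz0
    rw [← hpev, h0, map_zero]
  have hpk : pe k0 ≠ 0 := by
    intro h0
    have h1 := hpe k0 i0
    rw [h0, mul_zero] at h1
    exact mul_ne_zero (hcmp0 m) hpe0 h1
  let rk : ℕ → Fin (n + 1) → Mer := fun k i => im (cI k (fe hd i)) / im (cI k (fe hd k0))
  have hsg : ∀ k i, sc S hS (rk k i) = rk (k + 1) i := by
    intro k i
    have h1 : ∀ g, cI (k + 1) g = cm S (cI k g) := fun g => Function.iterate_succ_apply' _ _ _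
    change sc S hS (im (cI k (fe hd i)) / im (cI k (fe hd k0))) =
      im (cI (k + 1) (fe hd i)) / im (cI (k + 1) (fe hd k0))
    rw [map_div₀, sc_im, sc_im, h1, h1]
  let G : Set Mer := Set.range (fun i => im (cE i)) ∪
    Set.range fun p : Fin m × Fin (n + 1) => rk (p.1 : ℕ) p.2
  obtain ⟨K, hK⟩ : ∃ K : IntermediateField ℂ Mer, K = IntermediateField.adjoin ℂ G := ⟨_, rfl⟩
  have hGK : ∀ x ∈ G, x ∈ K := by
    rw [hK]
    exact fun x hx => IntermediateField.subset_adjoin ℂ G hx
  have hcK : ∀ i, im (cE i) ∈ K := fun i => hGK _ (Or.inl ⟨i, rfl⟩)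
  have hrK : ∀ k, k < m → ∀ i, rk k i ∈ K := fun k hk i => hGK _ (Or.inr ⟨(⟨k, hk⟩, i), rfl⟩)
  have hφK : ∀ C : MvPolynomial (Fin l) ℂ, im (φ C) ∈ K := by
    intro C
    have h1 : im (φ C) = eval₂ (algebraMap ℂ Mer) (fun i => im (cE i)) C := by
      change (algebraMap Ent Mer) (eval₂ (algebraMap ℂ Ent) cE C) = _
      rw [eval₂_comp_left (algebraMap Ent Mer), ← IsScalarTower.algebraMap_eq]
      rfl
    rw [h1]
    exact eval₂_mem (s := K) (fun α _ => K.algebraMap_mem _) hcK
  -- the last term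
  have hlast : ∀ i, rk m i ∈ K := by
    have hval : ∀ i, ∃ a ∈ K, im (pe i) = (∏ k : Fin m, im (cI k (fe hd k0))) ^ e * a := by
      intro i
      refine ⟨eval₂ ((algebraMap Ent Mer).comp φ) (fun s : Fin m → Fin (n + 1) =>
        ∏ k : Fin m, rk (k : ℕ) (s k)) (P i),
        eval₂_mem (s := K) (fun α _ => hφK _) (fun s => prod_mem fun k _ => hrK _ k.2 _), ?_⟩
      have h1 : im (pe i) = eval₂ ((algebraMap Ent Mer).comp φ) (fun s => im (segE s)) (P i) :=
        eval₂_comp_left (algebraMap Ent Mer) φ segE (P i)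
      rw [h1, ← eval₂_scale _ (hP i)]
      congr 1
      funext s
      have h2 : im (segE s) = ∏ k : Fin m, im (cI k (fe hd (s k))) :=
        map_prod (algebraMap Ent Mer) _ _
      rw [h2, ← Finset.prod_mul_distrib]
      refine Finset.prod_congr rfl fun k _ => ?_
      have h3 := im_ne (hcmp0 k)
      change _ = im (cI k (fe hd k0)) * (im (cI k (fe hd (s k))) / im (cI k (fe hd k0)))
      field_simp
    intro i
    obtain ⟨a, ha, hai⟩ := hval i
    obtain ⟨b, hb, hbk⟩ := hval k0
    have h4 : (∏ k : Fin m, im (cI k (fe hd k0))) ^ e ≠ 0 :=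
      pow_ne_zero _ (Finset.prod_ne_zero_iff.2 fun k _ => im_ne (hcmp0 k))
    have h3 : rk m i = im (pe i) / im (pe k0) := by
      change im (cI m (fe hd i)) / im (cI m (fe hd k0)) = _
      rw [div_eq_div_iff (im_ne (hcmp0 m)) (im_ne hpk), ← im_mul, ← im_mul, hpe i k0]
      ring_nf
    rw [h3, hai, hbk, mul_div_mul_left _ _ h4]
    exact div_mem ha hb
  have hall : ∀ k, k ≤ m → ∀ i, rk k i ∈ K := by
    intro k hk i
    rcases Nat.lt_or_eq_of_le hk with h | h
    · exact hrK k h i
    · rw [h]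
      exact hlast i
  refine ⟨K, ?_, ?_, ?_⟩
  · rw [IntermediateField.essFiniteType_iff, hK]
    exact IntermediateField.fg_adjoin_of_finite ((Set.finite_range _).union (Set.finite_range _))
  · have hle : K ≤ K.comap (sc S hS) := by
      conv_lhs => rw [hK]
      rw [IntermediateField.adjoin_le_iff]
      rintro _ (⟨i, rfl⟩ | ⟨⟨k, i⟩, rfl⟩)
      · change sc S hS (im (cE i)) ∈ K
        have h1 : cm S (cE i) * φ R0 = φ (R i) := by
          apply ent_ext
          intro z
          rw [map_mul, hφ, hφ]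
          exact hR z i
        have h2 : φ R0 ≠ 0 := by
          intro h0
          apply hR0
          rw [← hφ, h0, map_zero]
        have h3 : sc S hS (im (cE i)) = im (φ (R i)) / im (φ R0) := by
          rw [sc_im, ← h1, im_mul, mul_div_cancel_right₀ _ (im_ne h2)]
        rw [h3]
        exact div_mem (hφK _) (hφK _)
      · change sc S hS (rk (k : ℕ) i) ∈ K
        rw [hsg]
        exact hall _ k.2 i
    exact fun x hx => hle hx
  · intro i j
    have h0 : ∀ i, rk 0 i = im (fe hd i) / im (fe hd k0) := fun i => rfl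
    have h1 := im_ne hk0
    have h2 : im (fe hd i) / im (fe hd j) = rk 0 i / rk 0 j := by
      rw [h0, h0, div_div_div_cancel_right₀ h1]
    rw [h2]
    exact div_mem (hall 0 (Nat.zero_le m) i) (hall 0 (Nat.zero_le m) j)

end Pool.Agent.Run7.h718.SP
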